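import Pool.Agent.MP_a6acde_co.h17.Step7

/-!
The numbers `6^i 7^j` are asymptotically dense, hence `M2 m / m^2` tends to one.
-/

namespace Pool.Agent.MP_a6acde_co.H17

open Filter Topology

lemma fill {α β η : ℝ} (hα : 0 < α) (m n : ℕ) (h0 : 0 < m * β - n * α)
    (h1 : m * β - n * α < η) :
    ∃ Y : ℝ, ∀ y ≥ Y, ∃ i j : ℕ, y - η ≤ i * α + j * β ∧ i * α + j * β ≤ y := by
  set x := m * β - n * α with hx
  refine ⟨α * (⌈α / x⌉₊ * n : ℕ), fun y hy => ?_⟩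
  have hy0 : 0 ≤ y := le_trans (by positivity) hy
  have hI : ⌈α / x⌉₊ * n ≤ ⌊y / α⌋₊ := by
    apply Nat.le_floor
    rw [le_div_iff₀ hα, mul_comm]
    exact hy
  have a1 : (⌊y / α⌋₊ : ℝ) * α ≤ y := by
    rw [← le_div_iff₀ hα]
    exact Nat.floor_le (by positivity)
  have a2 : y < (⌊y / α⌋₊ + 1 : ℝ) * α := by
    rw [← div_lt_iff₀ hα]
    exact Nat.lt_floor_add_one _
  set I := ⌊y / α⌋₊
  set k := ⌊(y - I * α) / x⌋₊ with hk
  have b1 : (k : ℝ) * x ≤ y - I * α := by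
    rw [← le_div_iff₀ h0]
    exact Nat.floor_le (div_nonneg (by linarith) h0.le)
  have b2 : y - I * α < (k + 1 : ℝ) * x := by
    rw [← div_lt_iff₀ h0]
    exact Nat.lt_floor_add_one _
  have hk2 : k ≤ ⌈α / x⌉₊ := by
    have : (k : ℝ) ≤ α / x := by
      rw [le_div_iff₀ h0]
      linarith
    exact_mod_cast this.trans (Nat.le_ceil _)
  have hkn : k * n ≤ I := (Nat.mul_le_mul_right n hk2).trans hI
  have e : ((I - k * n : ℕ) : ℝ) * α + ((k * m : ℕ) : ℝ) * β = I * α + k * x := by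
    rw [Nat.cast_sub hkn, hx]
    push_cast
    ring
  exact ⟨I - k * n, k * m, by rw [e]; linarith, by rw [e]; linarith⟩

lemma irr : Irrational (Real.log 7 / Real.log 6) := by
  rintro ⟨q, hq⟩
  have h6 : 0 < Real.log 6 := Real.log_pos (by norm_num)
  have h7 : 0 < Real.log 7 := Real.log_pos (by norm_num)
  have hq0 : 0 < q := by
    have : (0 : ℝ) < q := by rw [hq]; positivity
    exact_mod_cast this
  have hn : (q.num.toNat : ℤ) = q.num := Int.toNat_of_nonneg (Rat.num_pos.2 hq0).le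
  have h1 : (q.num.toNat : ℝ) * Real.log 6 = q.den * Real.log 7 := by
    have h2 : ((q.num.toNat : ℕ) : ℝ) = (q.num : ℝ) := by exact_mod_cast hn
    rw [Rat.cast_def, div_eq_div_iff (by exact_mod_cast q.den_ne_zero) h6.ne'] at hq
    rw [h2]
    linarith
  rw [← Real.log_pow, ← Real.log_pow] at h1
  have h3 := Real.log_injOn_pos (Set.mem_Ioi.2 (by positivity)) (Set.mem_Ioi.2 (by positivity)) h1
  have h4 : 6 ^ q.num.toNat = 7 ^ q.den := by exact_mod_cast h3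
  have h5 : 7 ∣ 6 ^ q.num.toNat := h4 ▸ dvd_pow_self 7 q.den_ne_zero
  have := (Nat.Prime.dvd_of_dvd_pow (by norm_num) h5)
  omega

lemma dense_log {η : ℝ} (hη : 0 < η) :
    ∃ Y : ℝ, ∀ y ≥ Y, ∃ i j : ℕ, y - η ≤ i * Real.log 6 + j * Real.log 7 ∧
      i * Real.log 6 + j * Real.log 7 ≤ y := by
  have h6 : 0 < Real.log 6 := Real.log_pos (by norm_num)
  have h67 : Real.log 6 < Real.log 7 := Real.log_lt_log (by norm_num) (by norm_num)
  obtain ⟨x, hx, hx0, hx1⟩ := (dense_addSubgroupClosure_pair_iff.2 irr).exists_between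
    (show 0 < min η (Real.log 6) by positivity)
  obtain ⟨a, b, rfl⟩ := AddSubgroup.mem_closure_pair.1 hx
  have hx2 := hx1.trans_le (min_le_left _ _)
  have hx3 := hx1.trans_le (min_le_right _ _)
  simp only [zsmul_eq_mul] at hx0 hx2 hx3
  rcases le_total 0 a with ha | ha
  · have hb : b ≤ 0 := by
      by_contra hb
      have h1 : (1 : ℝ) ≤ b := by exact_mod_cast (show 1 ≤ b by omega)
      have h2 : (0 : ℝ) ≤ a := by exact_mod_cast ha
      nlinarith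
    lift a to ℕ using ha
    obtain ⟨n, rfl⟩ : ∃ n : ℕ, b = -n := ⟨(-b).toNat, by omega⟩
    push_cast at hx0 hx2
    exact fill h6 a n (by linarith) (by linarith)
  · have hb : 0 ≤ b := by
      by_contra hb
      have h1 : (b : ℝ) ≤ 0 := by exact_mod_cast (show b ≤ 0 by omega)
      have h2 : (a : ℝ) ≤ 0 := by exact_mod_cast ha
      nlinarith
    lift b to ℕ using hb
    obtain ⟨n, rfl⟩ : ∃ n : ℕ, a = -n := ⟨(-a).toNat, by omega⟩
    push_cast at hx0 hx2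
    obtain ⟨Y, hY⟩ := fill (β := Real.log 6) (η := η) (h6.trans h67) b n (by linarith) (by linarith)
    refine ⟨Y, fun y hy => ?_⟩
    obtain ⟨i, j, h1, h2⟩ := hY y hy
    exact ⟨j, i, by linarith, by linarith⟩

lemma dense_pow {ε : ℝ} (hε : 0 < ε) (hε1 : ε < 1) :
    ∀ᶠ t : ℕ in atTop, ∃ i j : ℕ, (1 - ε) * t ≤ (6 ^ i * 7 ^ j : ℕ) ∧ 6 ^ i * 7 ^ j ≤ t := by
  obtain ⟨Y, hY⟩ := dense_log (η := -Real.log (1 - ε))
    (neg_pos.2 (Real.log_neg (by linarith) (by linarith)))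
  have h1 : ∀ᶠ t : ℕ in atTop, Y ≤ Real.log t :=
    (Real.tendsto_log_atTop.comp tendsto_natCast_atTop_atTop).eventually_ge_atTop Y
  filter_upwards [h1, eventually_gt_atTop 0] with t ht ht0
  obtain ⟨i, j, h2, h3⟩ := hY _ ht
  have ht' : (0 : ℝ) < t := by exact_mod_cast ht0
  have e : i * Real.log 6 + j * Real.log 7 = Real.log ((6 : ℝ) ^ i * 7 ^ j) := by
    rw [Real.log_mul (by positivity) (by positivity), Real.log_pow, Real.log_pow]
  rw [e] at h2 h3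
  refine ⟨i, j, ?_, ?_⟩
  · push_cast
    rw [← Real.log_le_log_iff (mul_pos (by linarith) ht') (by positivity),
      Real.log_mul (by linarith) ht'.ne']
    linarith
  · rw [Real.log_le_log_iff (by positivity) ht'] at h3
    exact_mod_cast h3

lemma M2_le (t : ℕ) : M2 (t + 1) ≤ t ^ 2 + 1 :=
  Nat.sInf_le fun n hn c => upper t n hn c

lemma lt_M2 {t u K1 K2 : ℕ} (hu : 0 < u) (h : Blk u K1 K2) (h1 : K1 * (8 * u) ≤ t)
    (h2 : K2 ≤ t) : K1 * K2 * (8 * u) < M2 (t + 1) := by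
  obtain ⟨V, iV, G, hc, g1, g2⟩ := exists_graph u K1 K2 hu h
  obtain ⟨c, hcol⟩ := exists_colouring G _ (t + 1) hc
    (fun h => by have := g1 _ h; omega) (fun h => by have := g2 _ h; omega)
  by_contra hlt
  have hmem : M2 (t + 1) ∈ {M : ℕ | ∀ n : ℕ, M ≤ n → ∀ c : Sym2 (Fin n) → Fin 2,
      ∃ j : Fin 2, HasDegMonoPath (colourClass c j) (t + 1)} :=
    Nat.sInf_mem ⟨t ^ 2 + 1, fun n hn c => upper t n hn c⟩
  obtain ⟨j, hj⟩ := hmem _ (not_lt.1 hlt) c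
  exact hcol j hj

lemma lower_ev {ε : ℝ} (hε : 0 < ε) (hε1 : ε < 1) :
    ∀ᶠ t : ℕ in atTop, (1 - ε) ^ 2 * (t : ℝ) ^ 2 ≤ M2 (t + 1) := by
  have h1 : ∀ᶠ t : ℕ in atTop, 512 / ε ^ 3 ≤ (t : ℝ) :=
    tendsto_natCast_atTop_atTop.eventually_ge_atTop _
  filter_upwards [dense_pow hε hε1, h1] with t ⟨i, j, h2, h3⟩ ht
  set K1 := 3 ^ (i + j) with hK1
  set K2 := 6 ^ i * 7 ^ j with hK2
  have hK1pos : 0 < K1 := by positivity
  have h4 : K1 ^ 3 ≤ t ^ 2 := by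
    calc K1 ^ 3 = 27 ^ i * 27 ^ j := by
          rw [hK1, ← pow_mul, mul_comm, pow_mul, pow_add]
          norm_num
      _ ≤ 36 ^ i * 49 ^ j := by gcongr <;> norm_num
      _ = K2 ^ 2 := by
          rw [hK2, mul_pow, ← pow_mul, ← pow_mul, mul_comm i, mul_comm j, pow_mul, pow_mul]
          norm_num
      _ ≤ t ^ 2 := by gcongr
  have h5 : (8 * K1 : ℝ) ≤ ε * t := by
    apply le_of_pow_le_pow_left₀ (n := 3) (by norm_num) (by positivity)
    have h6 : (K1 : ℝ) ^ 3 ≤ (t : ℝ) ^ 2 := by exact_mod_cast h4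
    rw [div_le_iff₀ (by positivity)] at ht
    calc (8 * K1 : ℝ) ^ 3 = 512 * (K1 : ℝ) ^ 3 := by ring
      _ ≤ (t * ε ^ 3) * (t : ℝ) ^ 2 := by gcongr
      _ = (ε * t) ^ 3 := by ring
  have h7 : 8 * K1 ≤ t := by
    have : (8 * K1 : ℝ) ≤ t := h5.trans (by nlinarith [Nat.cast_nonneg (α := ℝ) t])
    exact_mod_cast this
  set u := t / (8 * K1) with hu
  have hu0 : 0 < u := Nat.div_pos h7 (by positivity)
  have h8 : K1 * (8 * u) ≤ t := by
    have := Nat.div_mul_le_self t (8 * K1)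
    nlinarith
  have h9 : t < K1 * (8 * u) + 8 * K1 := by
    have := Nat.lt_div_mul_add (a := t) (show 0 < 8 * K1 by positivity)
    nlinarith
  have h10 := lt_M2 hu0 (blk_pow67 u hu0 i j) h8 h3
  have h11 : ((K1 * K2 * (8 * u) : ℕ) : ℝ) ≤ M2 (t + 1) := by exact_mod_cast h10.le
  have h12 : (1 - ε) * t ≤ ((K1 * (8 * u) : ℕ) : ℝ) := by
    have : (t : ℝ) < ((K1 * (8 * u) : ℕ) : ℝ) + 8 * K1 := by exact_mod_cast h9
    linarith
  have h13 : 0 ≤ (1 - ε) * t := mul_nonneg (by linarith) (Nat.cast_nonneg t)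
  calc (1 - ε) ^ 2 * (t : ℝ) ^ 2 = ((1 - ε) * t) * ((1 - ε) * t) := by ring
    _ ≤ ((K1 * (8 * u) : ℕ) : ℝ) * (K2 : ℝ) := by gcongr
    _ = ((K1 * K2 * (8 * u) : ℕ) : ℝ) := by push_cast; ring
    _ ≤ _ := h11

theorem tendsto_succ :
    Tendsto (fun t : ℕ => (M2 (t + 1) : ℝ) / (t : ℝ) ^ 2) atTop (𝓝 1) := by
  rw [tendsto_order]
  constructor
  · intro a ha
    have hc : ContinuousAt (fun ε : ℝ => (1 - ε) ^ 2) 0 := by fun_prop
    have h1 : ∀ᶠ ε in 𝓝 (0 : ℝ), a < (1 - ε) ^ 2 := hc.eventually (lt_mem_nhds (by simpa using ha))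
    obtain ⟨ε, ⟨h2, h3⟩, h4⟩ := (((h1.and (gt_mem_nhds one_pos)).filter_mono
      nhdsWithin_le_nhds).and (self_mem_nhdsWithin (s := Set.Ioi 0))).exists
    filter_upwards [lower_ev h4 h3, eventually_gt_atTop 0] with t ht ht0
    have : (0 : ℝ) < t := by exact_mod_cast ht0
    rw [lt_div_iff₀ (by positivity)]
    exact (mul_lt_mul_of_pos_right h2 (by positivity)).trans_le ht
  · intro a ha
    have h1 : ∀ᶠ t : ℕ in atTop, 1 / (a - 1) < (t : ℝ) :=
      tendsto_natCast_atTop_atTop.eventually_gt_atTop _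
    filter_upwards [h1, eventually_gt_atTop 0] with t ht ht0
    have h2 : (1 : ℝ) ≤ t := by exact_mod_cast ht0
    have h3 : (M2 (t + 1) : ℝ) ≤ (t : ℝ) ^ 2 + 1 := by exact_mod_cast M2_le t
    rw [div_lt_iff₀ (by linarith)] at ht
    rw [div_lt_iff₀ (by positivity)]
    nlinarith

end Pool.Agent.MP_a6acde_co.H17
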