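import Mathlib
import Pool.Agent.MP_a6acde_co.Lower

/-!
A second finite certificate (shape 3 x 7) for the block structures of the lower bound.
-/

namespace Pool.Agent.MP_a6acde_co.H17

open Finset

def R7 : Fin 21 → Fin 21 → ℕ :=
  ![![0, 8, 0, 0, 0, 8, 0, 0, 0, 0, 0, 0, 0, 0, 0, 0, 6, 0, 0, 3, 5],
    ![8, 0, 0, 0, 0, 8, 0, 0, 0, 0, 0, 8, 0, 0, 0, 0, 0, 0, 8, 0, 0],
    ![0, 0, 0, 8, 0, 8, 1, 0, 0, 8, 0, 0, 0, 0, 0, 0, 0, 0, 0, 4, 5],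
    ![0, 0, 8, 0, 0, 8, 0, 0, 0, 8, 0, 4, 0, 0, 0, 0, 0, 0, 0, 8, 0],
    ![0, 0, 0, 0, 0, 8, 8, 0, 0, 8, 0, 8, 0, 0, 0, 0, 0, 0, 0, 1, 5],
    ![8, 8, 8, 8, 8, 0, 0, 0, 0, 0, 0, 0, 0, 0, 0, 0, 0, 0, 0, 0, 0],
    ![0, 0, 1, 0, 8, 0, 0, 0, 0, 8, 0, 8, 0, 0, 0, 0, 0, 0, 4, 6, 7],
    ![0, 0, 0, 0, 0, 0, 0, 0, 8, 8, 0, 8, 0, 0, 2, 4, 0, 8, 0, 0, 6],
    ![0, 0, 0, 0, 0, 0, 0, 8, 0, 8, 0, 8, 0, 0, 0, 0, 0, 8, 6, 4, 4],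
    ![0, 0, 8, 8, 8, 0, 8, 8, 8, 0, 0, 0, 0, 0, 0, 0, 0, 0, 0, 0, 0],
    ![0, 0, 0, 0, 0, 0, 0, 0, 0, 0, 0, 8, 0, 0, 8, 8, 8, 8, 8, 2, 0],
    ![0, 8, 0, 4, 8, 0, 8, 8, 8, 0, 8, 0, 0, 0, 0, 0, 0, 0, 0, 0, 0],
    ![0, 0, 0, 0, 0, 0, 0, 0, 0, 0, 0, 0, 0, 0, 8, 8, 8, 8, 8, 8, 6],
    ![0, 0, 0, 0, 0, 0, 0, 0, 0, 0, 0, 0, 0, 0, 8, 8, 8, 8, 8, 8, 8],
    ![0, 0, 0, 0, 0, 0, 0, 2, 0, 0, 8, 0, 8, 8, 0, 0, 0, 8, 8, 8, 8],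
    ![0, 0, 0, 0, 0, 0, 0, 4, 0, 0, 8, 0, 8, 8, 0, 0, 0, 8, 8, 8, 8],
    ![6, 0, 0, 0, 0, 0, 0, 0, 0, 0, 8, 0, 8, 8, 0, 0, 0, 8, 8, 8, 8],
    ![0, 0, 0, 0, 0, 0, 0, 8, 8, 0, 8, 0, 8, 8, 8, 8, 8, 0, 0, 0, 0],
    ![0, 8, 0, 0, 0, 0, 4, 0, 6, 0, 8, 0, 8, 8, 8, 8, 8, 0, 0, 0, 0],
    ![3, 0, 4, 8, 1, 0, 6, 0, 4, 0, 2, 0, 8, 8, 8, 8, 8, 0, 0, 0, 0],
    ![5, 0, 5, 0, 5, 0, 7, 6, 4, 0, 0, 0, 6, 8, 8, 8, 8, 0, 0, 0, 0]]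

def A7 : Fin 21 → ℕ := ![0, 1, 0, 1, 0, 2, 1, 0, 1, 2, 0, 2, 0, 0, 1, 1, 1, 2, 2, 2, 2]

def B7 : Fin 21 → ℕ := ![0, 0, 1, 1, 2, 0, 2, 3, 3, 1, 4, 2, 5, 6, 4, 5, 6, 3, 4, 5, 6]

lemma R7_symm : ∀ x y, R7 x y = R7 y x := by decide
lemma R7_self : ∀ x, R7 x x = 0 := by decide
lemma R7_le : ∀ x y, R7 x y ≤ 8 := by decide
lemma A7_lt : ∀ x, A7 x < 3 := by decide
lemma B7_lt : ∀ x, B7 x < 7 := by decide
lemma R7_sum : ∀ x, ∑ y, R7 x y = 30 + 2 * x.val := by decide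
lemma R7_lab : ∀ x y, x < y → (0 < R7 x y → A7 x < A7 y) ∧ (R7 x y < 8 → B7 x < B7 y) := by
  decide

lemma blk_step7 (u K1 K2 : ℕ) (h : Blk u K1 K2) : Blk u (3 * K1) (7 * K2) := by
  obtain ⟨S, iF, iD, r, α, β, lo, hc, hsym, hself, hle, hα, hβ, hinj, hlab, hwin⟩ := h
  set c := K1 * K2 with hcdef
  let r' : Fin 21 × S → Fin 21 × S → ℕ := fun a b =>
    (if a.1 = b.1 then r a.2 b.2 else 0) + R7 a.1 b.1 * u
  have hsum : ∀ a : Fin 21 × S,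
      ∑ b, r' a b = (15 + a.1.val) * (2 * u * c) + ∑ t, r a.2 t := by
    rintro ⟨x, s⟩
    simp only [r', Fintype.sum_prod_type, Finset.sum_add_distrib]
    have e1 : ∑ y : Fin 21, ∑ t : S, (if x = y then r s t else 0) = ∑ t, r s t := by
      rw [Finset.sum_comm]
      simp
    have e2 : ∑ y : Fin 21, ∑ _t : S, R7 x y * u = (15 + x.val) * (2 * u * c) := by
      simp only [Finset.sum_const, Finset.card_univ, hc, smul_eq_mul]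
      rw [← Finset.mul_sum, ← Finset.sum_mul, R7_sum]
      ring
    rw [e1, e2, add_comm]
  have hlt : ∀ a b : Fin 21 × S, a.1 < b.1 → ∑ z, r' a z < ∑ z, r' b z := by
    intro a b hab
    rw [hsum, hsum]
    have h1 := hwin a.2
    have h2 := hwin b.2
    have h3 : (15 + a.1.val + 1) * (2 * u * c) ≤ (15 + b.1.val) * (2 * u * c) :=
      Nat.mul_le_mul_right _ (by have : a.1.val < b.1.val := hab; omega)
    nlinarith [h1.2, h2.1]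
  refine ⟨Fin 21 × S, inferInstance, inferInstance, r',
    fun a => A7 a.1 * K1 + α a.2, fun a => B7 a.1 * K2 + β a.2, lo + 15 * (2 * u * c),
    ?_, ?_, ?_, ?_, ?_, ?_, ?_, ?_, ?_⟩
  · simp [hc, hcdef]
    ring
  · rintro ⟨x, s⟩ ⟨y, t⟩
    simp only [r', R7_symm x y, hsym s t, eq_comm]
  · rintro ⟨x, s⟩
    simp [r', R7_self, hself]
  · rintro ⟨x, s⟩ ⟨y, t⟩
    simp only [r']
    by_cases hxy : x = y
    · subst hxy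
      simp [R7_self, hle]
    · simp only [hxy, if_false, zero_add]
      exact Nat.mul_le_mul_right _ (R7_le x y)
  · rintro ⟨x, s⟩
    have := lex_lt (q := 0) (A7_lt x) (hα s)
    simpa using this
  · rintro ⟨x, s⟩
    have := lex_lt (q := 0) (B7_lt x) (hβ s)
    simpa using this
  · rintro ⟨x, s⟩ ⟨y, t⟩ he
    rcases lt_trichotomy x y with hxy | hxy | hxy
    · exact absurd he (hlt (x, s) (y, t) hxy).ne
    · subst hxy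
      rw [hsum, hsum] at he
      have := hinj s t (by simpa using he)
      rw [this]
    · exact absurd he.symm (hlt (y, t) (x, s) hxy).ne
  · rintro ⟨x, s⟩ ⟨y, t⟩ hl
    rcases lt_trichotomy x y with hxy | hxy | hxy
    · have h1 := R7_lab x y hxy
      simp only [r', hxy.ne, if_false, zero_add]
      refine ⟨fun h => lex_lt (h1.1 ?_) (hα s), fun h => lex_lt (h1.2 ?_) (hβ s)⟩
      · exact Nat.pos_of_mul_pos_right h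
      · exact Nat.lt_of_mul_lt_mul_right h
    · subst hxy
      rw [hsum, hsum] at hl
      have h1 := hlab s t (by simpa using hl)
      simp only [r', if_true, R7_self, zero_mul, add_zero]
      exact ⟨fun h => Nat.add_lt_add_left (h1.1 h) _, fun h => Nat.add_lt_add_left (h1.2 h) _⟩
    · exact absurd hl (not_lt.mpr (hlt (y, t) (x, s) hxy).le)
  · rintro ⟨x, s⟩
    rw [hsum]
    have h1 := hwin s
    have hx : x.val ≤ 20 := by have := x.isLt; omega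
    have h3 : x.val * (2 * u * c) ≤ 20 * (2 * u * c) := Nat.mul_le_mul_right _ hx
    have h4 : 2 * u * (3 * K1 * (7 * K2)) = 21 * (2 * u * c) := by rw [hcdef]; ring
    rw [h4]
    constructor
    · nlinarith [h1.1, Nat.zero_le (x.val * (2 * u * c))]
    · nlinarith [h1.2]

lemma blk_pow67 (u : ℕ) (hu : 0 < u) (i j : ℕ) : Blk u (3 ^ (i + j)) (6 ^ i * 7 ^ j) := by
  induction j with
  | zero => simpa using blk_pow u hu i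
  | succ j ih =>
    have := blk_step7 u _ _ ih
    rwa [show 3 * 3 ^ (i + j) = 3 ^ (i + (j + 1)) by ring,
      show 7 * (6 ^ i * 7 ^ j) = 6 ^ i * 7 ^ (j + 1) by ring] at this

end Pool.Agent.MP_a6acde_co.H17
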